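import Pool.Agent.H.MP_32a6cf_lc.Defs

set_option autoImplicit false

namespace Pool.Agent.H.MP_32a6cf_lc

open Function

variable {d : ℕ} {K : Type} [Field K]

def Tm.ev (x : Fin d → K) : Tm d → K
  | .var i => x i
  | .const c => c
  | .add s t => s.ev x + t.ev x
  | .mul s t => s.ev x * t.ev x

def Tm.den : Tm d → ℕ
  | .var _ => 1
  | .const c => c.den
  | .add s t => s.den * t.den
  | .mul s t => s.den * t.den

lemma Tm.den_ne (t : Tm d) : t.den ≠ 0 := by
  induction t with
  | var i => exact one_ne_zero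
  | const c => exact c.den_nz
  | add s t hs ht => exact mul_ne_zero hs ht
  | mul s t hs ht => exact mul_ne_zero hs ht

lemma ne_of_dvd {a b c : ℕ} (h : a ∣ b * c) (hb : (b : K) ≠ 0) (hc : (c : K) ≠ 0) :
    (a : K) ≠ 0 := by
  obtain ⟨e, he⟩ := h
  intro h0
  have : ((b * c : ℕ) : K) = 0 := by rw [he]; push_cast; rw [h0, zero_mul]
  push_cast at this
  exact mul_ne_zero hb hc this

lemma Tm.ev_cast (t : Tm d) (x : Fin d → ℚ) (hx : ∀ i, ((x i).den : K) ≠ 0)
    (ht : (t.den : K) ≠ 0) :
    ((t.eval x).den : K) ≠ 0 ∧ ((t.eval x : ℚ) : K) = t.ev fun i => (x i : K) := by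
  induction t with
  | var i => exact ⟨hx i, rfl⟩
  | const c => exact ⟨ht, rfl⟩
  | add s t hs ht' =>
    simp only [Tm.den, Nat.cast_mul, mul_ne_zero_iff] at ht
    obtain ⟨h1, h2⟩ := hs ht.1
    obtain ⟨h3, h4⟩ := ht' ht.2
    exact ⟨ne_of_dvd (Rat.add_den_dvd _ _) h1 h3, by
      simp only [Tm.eval, Tm.ev]; rw [Rat.cast_add_of_ne_zero h1 h3, h2, h4]⟩
  | mul s t hs ht' =>
    simp only [Tm.den, Nat.cast_mul, mul_ne_zero_iff] at ht
    obtain ⟨h1, h2⟩ := hs ht.1
    obtain ⟨h3, h4⟩ := ht' ht.2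
    exact ⟨ne_of_dvd (Rat.mul_den_dvd _ _) h1 h3, by
      simp only [Tm.eval, Tm.ev]; rw [Rat.cast_mul_of_ne_zero h1 h3, h2, h4]⟩

lemma Tm.ev_congr (t : Tm d) {x y : Fin d → K} (h : ∀ i, t.occ i ≠ 0 → x i = y i) :
    t.ev x = t.ev y := by
  induction t with
  | var i => exact h i (by simp [Tm.occ])
  | const c => rfl
  | add s t hs ht =>
    simp only [Tm.ev]
    rw [hs fun i hi => h i (by simp only [Tm.occ]; omega),
      ht fun i hi => h i (by simp only [Tm.occ]; omega)]
  | mul s t hs ht =>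
    simp only [Tm.ev]
    rw [hs fun i hi => h i (by simp only [Tm.occ]; omega),
      ht fun i hi => h i (by simp only [Tm.occ]; omega)]

lemma Tm.ev_upd (t : Tm d) (i : Fin d) (h : t.occ i = 0) (x : Fin d → K) (s : K) :
    t.ev (update x i s) = t.ev x :=
  t.ev_congr fun j hj => update_of_ne (fun e : j = i => hj (e ▸ h)) _ _

lemma Tm.ev_aff (t : Tm d) (i : Fin d) (h : t.occ i ≤ 1) (x : Fin d → K) :
    ∃ α β : K, ∀ s, t.ev (update x i s) = α * s + β := by
  induction t with
  | var j =>
    by_cases hj : j = i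
    · exact ⟨1, 0, fun s => by simp [Tm.ev, hj]⟩
    · exact ⟨0, x j, fun s => by simp [Tm.ev, hj]⟩
  | const c => exact ⟨0, c, fun s => by simp [Tm.ev]⟩
  | add s t hs ht =>
    simp only [Tm.occ] at h
    obtain ⟨a, b, h1⟩ := hs (by omega)
    obtain ⟨a', b', h2⟩ := ht (by omega)
    exact ⟨a + a', b + b', fun r => by simp only [Tm.ev]; rw [h1, h2]; ring⟩
  | mul s t hs ht =>
    simp only [Tm.occ] at h
    obtain ⟨a, b, h1⟩ := hs (by omega)
    obtain ⟨a', b', h2⟩ := ht (by omega)
    by_cases h0 : s.occ i = 0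
    · exact ⟨s.ev x * a', s.ev x * b', fun r => by
        simp only [Tm.ev]; rw [s.ev_upd i h0, h2]; ring⟩
    · exact ⟨a * t.ev x, b * t.ev x, fun r => by
        simp only [Tm.ev]; rw [t.ev_upd i (by omega), h1]; ring⟩

/-- Copyless multi-affine maps with a given flow of registers. -/
def MA (F : (Fin d → K) → Fin d → K) (D : Option (Fin d) → Option (Fin d)) : Prop :=
  D none = none ∧ (∀ x y j, (∀ i, D (some i) = some j → x i = y i) → F x j = F y j) ∧
    ∀ x i j, ∃ α β : K, ∀ s, F (update x i s) j = α * s + β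

lemma MA.id : MA (K := K) (d := d) id id := by
  refine ⟨rfl, fun x y j h => h j rfl, fun x i j => ?_⟩
  by_cases hj : j = i
  · exact ⟨1, 0, fun s => by simp [hj]⟩
  · exact ⟨0, x j, fun s => by simp [hj]⟩

lemma MA.comp {F G : (Fin d → K) → Fin d → K} {D E : Option (Fin d) → Option (Fin d)}
    (hF : MA F D) (hG : MA G E) : MA (G ∘ F) (E ∘ D) := by
  refine ⟨by simp [hF.1, hG.1], fun x y j h => hG.2.1 _ _ _ fun k hk => hF.2.1 _ _ _ fun i hi =>
    h i (by simp [hi, hk]), fun x i j => ?_⟩
  have h0 : ∀ s k, D (some i) ≠ some k → F (update x i s) k = F x k := fun s k hk =>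
    hF.2.1 _ _ _ fun i' hi' => update_of_ne (fun e : i' = i => hk (e ▸ hi')) _ _
  cases hD : D (some i) with
  | none =>
    refine ⟨0, G (F x) j, fun s => ?_⟩
    have : F (update x i s) = F x := funext fun k => h0 s k (by simp [hD])
    simp [this]
  | some k =>
    obtain ⟨a, b, h1⟩ := hF.2.2 x i k
    obtain ⟨a', b', h2⟩ := hG.2.2 (F x) k j
    refine ⟨a' * a, a' * b + b', fun s => ?_⟩
    have : F (update x i s) = update (F x) k (a * s + b) := funext fun k' => by
      by_cases hk : k' = k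
      · rw [hk, update_self, h1]
      · rw [update_of_ne hk, h0 s k' (by rw [hD]; exact fun e => hk (Option.some.inj e).symm)]
    rw [comp_apply, this, h2]; ring

variable {S : Type} (A : CCRA S)

def st (q : A.Q) (w : List S) : A.Q := w.foldl A.next q

def sem : A.Q → List S → (Fin A.d → K) → Fin A.d → K
  | _, [] => id
  | q, a :: w => sem (A.next q a) w ∘ fun x j => (A.upd q a j).ev x

open Classical in
noncomputable def fl1 (q : A.Q) (a : S) (o : Option (Fin A.d)) : Option (Fin A.d) :=
  o.bind fun i => if h : ∃ j, (A.upd q a j).occ i ≠ 0 then some h.choose else none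

noncomputable def fl : A.Q → List S → Option (Fin A.d) → Option (Fin A.d)
  | _, [] => id
  | q, a :: w => fl (A.next q a) w ∘ fl1 A q a

lemma st_app (q : A.Q) (u v : List S) : st A q (u ++ v) = st A (st A q u) v := List.foldl_append

lemma sem_app (q : A.Q) (u v : List S) :
    sem (K := K) A q (u ++ v) = sem A (st A q u) v ∘ sem A q u := by
  induction u generalizing q with
  | nil => rfl
  | cons a u ih => simp only [List.cons_append, sem, ih]; rfl

lemma fl_app (q : A.Q) (u v : List S) : fl A q (u ++ v) = fl A (st A q u) v ∘ fl A q u := by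
  induction u generalizing q with
  | nil => rfl
  | cons a u ih => simp only [List.cons_append, fl, ih]; rfl

lemma ma1 (q : A.Q) (a : S) : MA (K := K) (fun x j => (A.upd q a j).ev x) (fl1 A q a) := by
  refine ⟨rfl, fun x y j h => Tm.ev_congr _ fun i hi => h i ?_, fun x i j => Tm.ev_aff _ i
    ((Finset.single_le_sum (f := fun j => (A.upd q a j).occ i) (fun _ _ => Nat.zero_le _)
      (Finset.mem_univ j)).trans (A.upd_copyless q a i)) x⟩
  have hex : ∃ j, (A.upd q a j).occ i ≠ 0 := ⟨j, hi⟩
  simp only [fl1, Option.bind_some, dif_pos hex, Option.some.injEq]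
  by_contra hne
  have h1 := hex.choose_spec
  have h2 := Finset.add_le_sum (s := Finset.univ) (f := fun j => (A.upd q a j).occ i)
    (fun _ _ => Nat.zero_le _) (Finset.mem_univ _) (Finset.mem_univ _) hne
  have h3 := A.upd_copyless q a i
  omega

lemma ma (q : A.Q) (w : List S) : MA (K := K) (sem A q w) (fl A q w) := by
  induction w generalizing q with
  | nil => exact MA.id
  | cons a w ih => exact (ma1 A q a).comp (ih _)

lemma run_cast (hA : ∀ q a j, ((A.upd q a j).den : K) ≠ 0) (w : List S) :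
    ∀ (q : A.Q) (x : Fin A.d → ℚ), (∀ i, ((x i).den : K) ≠ 0) →
      (w.foldl A.step (q, x)).1 = st A q w ∧ (∀ i, (((w.foldl A.step (q, x)).2 i).den : K) ≠ 0) ∧
        (fun i => ((w.foldl A.step (q, x)).2 i : K)) = sem A q w fun i => (x i : K) := by
  induction w with
  | nil => exact fun q x hx => ⟨rfl, hx, rfl⟩
  | cons a w ih =>
    intro q x hx
    have h := ih (A.next q a) (fun j => (A.upd q a j).eval x)
      fun j => (Tm.ev_cast _ x hx (hA q a j)).1
    refine ⟨h.1, h.2.1, h.2.2.trans ?_⟩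
    simp only [sem, comp_apply]
    congr 1
    exact funext fun j => (Tm.ev_cast _ x hx (hA q a j)).2

end Pool.Agent.H.MP_32a6cf_lc
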