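import Pool.Agent.H.MP_32a6cf_lc.A

set_option autoImplicit false

namespace Pool.Agent.H.MP_32a6cf_lc

open Function

variable {K : Type} [Field K] {S : Type} (A : CCRA S)

def pw (y : List S) : ℕ → List S
  | 0 => []
  | n + 1 => y ++ pw y n

lemma pw_succ' (y : List S) (n : ℕ) : pw y (n + 1) = pw y n ++ y := by
  induction n with
  | zero => simp [pw]
  | succ n ih => rw [pw, ih, ← List.append_assoc, ← pw, ih]

variable {A}

lemma st_pw {q : A.Q} {y : List S} (h : st A q y = q) (n : ℕ) : st A q (pw y n) = q := by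
  induction n with
  | zero => rfl
  | succ n ih => rw [pw, st_app, h, ih]

lemma sem_pw {q : A.Q} {y : List S} (h : st A q y = q) (n : ℕ) :
    sem (K := K) A q (pw y n) = (sem A q y)^[n] := by
  induction n with
  | zero => rfl
  | succ n ih => rw [pw, sem_app, h, ih, iterate_succ]

lemma fl_pw {q : A.Q} {y : List S} (h : st A q y = q) (n : ℕ) :
    fl A q (pw y n) = (fl A q y)^[n] := by
  induction n with
  | zero => rfl
  | succ n ih => rw [pw, fl_app, h, ih, iterate_succ]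

lemma fl_none (q : A.Q) (w : List S) : fl A q w none = none := (ma (K := ℚ) A q w).1

variable (A) in
lemma exists_term : ∃ (u : List S), ∀ v, ∃ v', st A (st A A.q0 u) (v ++ v') = st A A.q0 u := by
  have := A.fin
  let R : A.Q → Set A.Q := fun q => {q' | ∃ v, st A q v = q'}
  obtain ⟨u, hu⟩ := exists_minimalFor_of_wellFoundedLT (fun _ : List S => True)
    (fun u => (R (st A A.q0 u)).ncard) ⟨[], trivial⟩
  refine ⟨u, fun v => ?_⟩
  have h1 : R (st A A.q0 (u ++ v)) ⊆ R (st A A.q0 u) := by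
    rintro _ ⟨w, rfl⟩
    exact ⟨v ++ w, by simp only [st_app]⟩
  have h2 := Set.eq_of_subset_of_ncard_le h1 (hu.le trivial) (Set.toFinite _)
  have h3 : st A A.q0 u ∈ R (st A A.q0 (u ++ v)) := h2 ▸ ⟨[], rfl⟩
  obtain ⟨w, hw⟩ := h3
  exact ⟨w, by rw [st_app, ← st_app A A.q0 u v, hw]⟩

def Live (q : A.Q) (w : List S) : Set (Fin A.d) := {j | ∃ i, fl A q w (some i) = some j}

/-- A loop with the least number of live registers. -/
def MinLoop (q : A.Q) (w : List S) : Prop :=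
  st A q w = q ∧ ∀ v, st A q v = q → (Live q w).ncard ≤ (Live q v).ncard

lemma exists_minLoop (q : A.Q) : ∃ w, MinLoop q w := by
  obtain ⟨u, hu⟩ := exists_minimalFor_of_wellFoundedLT (fun v : List S => st A q v = q)
    (fun v => (Live q v).ncard) ⟨[], rfl⟩
  exact ⟨u, hu.1, fun v hv => hu.le hv⟩

lemma live_sub {q : A.Q} {v w : List S} (hv : st A q v = q) : Live q (v ++ w) ⊆ Live q w := by
  rintro j ⟨i, hi⟩
  rw [fl_app, hv, comp_apply] at hi
  cases h : fl A q v (some i) with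
  | none => rw [h, fl_none] at hi; cases hi
  | some k => exact ⟨k, h ▸ hi⟩

lemma fl_id {q : A.Q} {v w : List S} (hw : MinLoop q w) (hv : st A q v = q) :
    ∃ n, ∀ i ∈ Live q w, fl A q (pw (v ++ w) (n + 1)) (some i) = some i := by
  have hy : st A q (v ++ w) = q := by rw [st_app, hv, hw.1]
  have h1 : Live q ((w ++ v) ++ w) = Live q w :=
    Set.eq_of_subset_of_ncard_le (live_sub (by rw [st_app, hw.1, hv]))
      (hw.2 _ (by rw [List.append_assoc, st_app, hw.1, hy])) (Set.toFinite _)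
  have h2 : ∀ j : Live q w, ∃ i : Live q w, fl A q (v ++ w) (some i.1) = some j.1 := by
    rintro ⟨j, hj⟩
    obtain ⟨i, hi⟩ := h1.symm ▸ hj
    rw [List.append_assoc, fl_app, hw.1, comp_apply] at hi
    cases h : fl A q w (some i) with
    | none => rw [h, fl_none] at hi; cases hi
    | some k => exact ⟨⟨k, i, h⟩, h ▸ hi⟩
  choose s hs using h2
  have hinj : Injective s := fun a b h => by
    have := hs a
    rw [h, hs b] at this
    exact Subtype.ext (Option.some.inj this).symm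
  let π : Equiv.Perm (Live q w) := (Equiv.ofBijective s (Finite.injective_iff_bijective.1 hinj)).symm
  have h3 : ∀ i : Live q w, fl A q (v ++ w) (some i.1) = some (π i).1 := fun i => by
    rw [← hs (π i)]
    exact congrArg (fun x : Live q w => fl A q (v ++ w) (some x.1))
      ((Equiv.ofBijective s (Finite.injective_iff_bijective.1 hinj)).apply_symm_apply i).symm
  have h4 : ∀ (n : ℕ) (i : Live q w), 
      (fl A q (v ++ w))^[n] (some i.1) = some ((π ^ n) i).1 := by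
    intro n
    induction n with
    | zero => exact fun i => rfl
    | succ n ih => intro i; rw [iterate_succ_apply', ih, h3, pow_succ']; rfl
  refine ⟨orderOf π - 1, fun i hi => ?_⟩
  rw [fl_pw hy, Nat.sub_add_cancel (orderOf_pos π), h4 _ ⟨i, hi⟩, pow_orderOf_eq_one]; rfl

/-- The maps that act coordinatewise by affine maps on the live registers. -/
def Diag {d : ℕ} (L : Set (Fin d)) (κ : Fin d → K) (F : (Fin d → K) → Fin d → K) : Prop :=
  (∀ x, ∀ j ∉ L, F x j = κ j) ∧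
    ∀ i ∈ L, ∃ α β : K, ∀ x, (∀ j ∉ L, x j = κ j) → F x i = α * x i + β

lemma in_X {q : A.Q} {v w : List S} (q' : A.Q) (hv : st A q' v = q) (x : Fin A.d → K) :
    ∀ j ∉ Live q w, sem A q' (v ++ w) x j = sem A q w 0 j := fun j hj => by
  rw [sem_app, hv]
  exact (ma A q w).2.1 _ _ _ fun i hi => (hj ⟨i, hi⟩).elim

lemma diag {q : A.Q} {v w : List S} (hw : MinLoop q w) (hv : st A q v = q) :
    ∃ n, Diag (Live q w) (sem (K := K) A q w 0) (sem A q (pw (v ++ w) (n + 1))) := by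
  obtain ⟨n, hn⟩ := fl_id hw hv
  have hy : st A q (v ++ w) = q := by rw [st_app, hv, hw.1]
  refine ⟨n, fun x => ?_, fun i hi => ?_⟩
  · rw [pw_succ', ← List.append_assoc]
    exact in_X q (by rw [st_app, st_pw hy, hv]) x
  · have hm := ma (K := K) A q (pw (v ++ w) (n + 1))
    obtain ⟨α, β, h⟩ := hm.2.2 (sem A q w 0) i i
    refine ⟨α, β, fun x hx => ?_⟩
    rw [← h]
    refine hm.2.1 _ _ _ fun k hk => ?_
    by_cases hki : k = i
    · rw [hki, update_self]
    · rw [update_of_ne hki]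
      refine hx k fun hk' => hki ?_
      rw [hn k hk'] at hk
      exact Option.some.inj hk

lemma merge [Finite K] {d : ℕ} {L : Set (Fin d)} {κ : Fin d → K}
    {F G : (Fin d → K) → Fin d → K} (hF : Diag L κ F) (hG : Diag L κ G) :
    ∃ N, ∀ x, (∀ j ∉ L, x j = κ j) → F^[N + 1] (G (F^[N + 1] x)) = F^[N + 1] (G x) := by
  classical
  have := Fintype.ofFinite K
  obtain ⟨N, hN⟩ : ∃ N, N + 1 = Fintype.card (Equiv.Perm K) :=
    ⟨_, Nat.sub_add_cancel Fintype.card_pos⟩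
  have h0 : ∀ x, ∀ j ∉ L, F^[N + 1] x j = κ j := fun x => by
    rw [iterate_succ_apply']; exact hF.1 _
  have h1 : ∀ i ∈ L, (∀ x, (∀ j ∉ L, x j = κ j) → F^[N + 1] x i = x i) ∨
      ∃ c, ∀ x, (∀ j ∉ L, x j = κ j) → F^[N + 1] x i = c := by
    intro i hi
    obtain ⟨α, β, h⟩ := hF.2 i hi
    have h2 : ∀ n x, (∀ j ∉ L, x j = κ j) → F^[n] x i = (fun s => α * s + β)^[n] (x i) := by
      intro n
      induction n with
      | zero => exact fun _ _ => rfl
      | succ n ih => intro x hx; rw [iterate_succ_apply, ih _ (hF.1 x), h x hx]; rfl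
    by_cases hα : α = 0
    · exact Or.inr ⟨β, fun x hx => by rw [h2 _ x hx, iterate_succ_apply', hα]; simp⟩
    · refine Or.inl fun x hx => ?_
      let τ : Equiv.Perm K := (Equiv.mulLeft₀ α hα).trans (Equiv.addRight β)
      have h3 : (fun s => α * s + β) = τ := rfl
      rw [h2 _ x hx, h3, ← Equiv.Perm.coe_pow, hN, pow_card_eq_one]; rfl
  refine ⟨N, fun x hx => funext fun i => ?_⟩
  by_cases hi : i ∈ L
  · obtain ⟨α, β, h⟩ := hG.2 i hi
    rcases h1 i hi with h2 | ⟨c, h2⟩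
    · rw [h2 _ (hG.1 _), h2 _ (hG.1 _), h _ (h0 x), h x hx, h2 x hx]
    · rw [h2 _ (hG.1 _), h2 _ (hG.1 _)]
  · rw [h0 _ i hi, h0 _ i hi]

variable (A) in
/-- After a suitable word, any two continuations can be merged modulo any prime. -/
lemma key : ∃ u : List S, ∀ (K : Type) [Field K] [Finite K] (v₁ v₂ : List S),
    ∃ r₁ r₂ : List S, st A A.q0 (u ++ (v₁ ++ r₁)) = st A A.q0 (u ++ (v₂ ++ r₂)) ∧
      ∀ x : Fin A.d → K, sem A A.q0 (u ++ (v₁ ++ r₁)) x = sem A A.q0 (u ++ (v₂ ++ r₂)) x := by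
  obtain ⟨u, hu⟩ := exists_term A
  set q := st A A.q0 u with hq
  obtain ⟨w, hw⟩ := exists_minLoop q
  refine ⟨u ++ w, fun K _ _ v₁ v₂ => ?_⟩
  obtain ⟨z₁, h₁⟩ := hu v₁
  obtain ⟨z₂, h₂⟩ := hu v₂
  obtain ⟨n₁, d₁⟩ := diag (K := K) hw h₁
  obtain ⟨n₂, d₂⟩ := diag (K := K) hw h₂
  obtain ⟨N, hN⟩ := merge d₁ d₂
  have l₁ : st A q (pw (v₁ ++ z₁ ++ w) (n₁ + 1)) = q := st_pw (by rw [st_app, h₁, hw.1]) _
  have l₂ : st A q (pw (v₂ ++ z₂ ++ w) (n₂ + 1)) = q := st_pw (by rw [st_app, h₂, hw.1]) _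
  set y₁ := pw (v₁ ++ z₁ ++ w) (n₁ + 1) with hy₁
  set y₂ := pw (v₂ ++ z₂ ++ w) (n₂ + 1) with hy₂
  have l₃ := st_pw l₁ (N + 1)
  have l₀ : st A A.q0 (u ++ w) = q := by rw [st_app, ← hq, hw.1]
  obtain ⟨r₁, e₁⟩ : ∃ r, v₁ ++ r = pw y₁ (N + 1) ++ (y₂ ++ pw y₁ (N + 1)) :=
    ⟨_, by rw [pw, hy₁, pw]; simp only [List.append_assoc]; rfl⟩
  obtain ⟨r₂, e₂⟩ : ∃ r, v₂ ++ r = y₂ ++ pw y₁ (N + 1) :=
    ⟨_, by rw [hy₂, pw]; simp only [List.append_assoc]; rfl⟩
  refine ⟨r₁, r₂, ?_, fun x => ?_⟩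
  · rw [e₁, e₂]; simp only [st_app A _ (u ++ w), st_app A q, l₀, l₂, l₃]
  · rw [e₁, e₂]
    simp only [sem_app A _ (u ++ w), sem_app A q, l₀, l₂, l₃, comp_apply, sem_pw l₁]
    exact hN _ (in_X A.q0 hq.symm x)

end Pool.Agent.H.MP_32a6cf_lc
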