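import Pool.Agent.H.MP_32a6cf_lc.B

set_option autoImplicit false

namespace Pool.Agent.H.MP_32a6cf_lc

open Function

variable {S : Type} [DecidableEq S] (a : S)

/-- The automaton `y := y + 1` on `a`, and `x := x * y + 1, y := 1` on other letters. -/
def A0 : CCRA S where
  Q := Unit
  fin := inferInstance
  q0 := ()
  d := 2
  next _ _ := ()
  upd _ c := if c = a then ![.var 0, .add (.var 1) (.const 1)]
    else ![.add (.mul (.var 0) (.var 1)) (.const 1), .const 1]
  upd_copyless _ c i := by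
    split_ifs <;> fin_cases i <;> simp [Fin.sum_univ_two, Tm.occ]
  init := ![0, 1]
  out _ := .var 0
  out_copyless _ i := by fin_cases i <;> simp [Tm.occ]

def XY : List S → ℕ × ℕ
  | [] => (0, 1)
  | c :: w => if c = a then ((XY w).1, (XY w).2 + 1) else ((XY w).1 * (XY w).2 + 1, 1)

lemma run_A0 (w : List S) : (w.reverse.foldl (A0 a).step ((), ![0, 1])).2 =
    ![((XY a w).1 : ℚ), (XY a w).2] := by
  induction w with
  | nil => simp [XY]
  | cons c w ih =>
    rw [List.reverse_cons, List.foldl_append, List.foldl_cons, List.foldl_nil, CCRA.step, ih]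
    funext j
    by_cases h : c = a <;> fin_cases j <;> simp [A0, XY, h, Tm.eval]

lemma val_A0 (w : List S) : (A0 a).value w.reverse = (XY a w).1 :=
  congrFun (run_A0 a w) (0 : Fin 2)

lemma XY_pos (w : List S) : 0 < (XY a w).2 := by
  cases w with
  | nil => exact one_pos
  | cons c w => simp only [XY]; split_ifs <;> simp

lemma XY_app (u : List S) : ∃ s P : ℕ, 0 < P ∧ ∀ v, (XY a v).2 = 1 →
    XY a (u ++ v) = (s + P * (XY a v).1, (XY a u).2) := by
  induction u with
  | nil => exact ⟨0, 1, one_pos, fun v hv => Prod.ext (by simp) hv⟩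
  | cons c u ih =>
    obtain ⟨s, P, hP, h⟩ := ih
    by_cases hc : c = a
    · exact ⟨s, P, hP, fun v hv => by simp [XY, hc, h v hv]⟩
    · exact ⟨s * (XY a u).2 + 1, P * (XY a u).2, Nat.mul_pos hP (XY_pos a u), fun v hv => by
        simp only [List.cons_append, XY, hc, h v hv, if_false]; congr 1; ring⟩

lemma XY_rep (n : ℕ) (v : List S) :
    XY a (List.replicate n a ++ v) = ((XY a v).1, (XY a v).2 + n) := by
  induction n with
  | zero => rfl
  | succ n ih => simp [List.replicate_succ, XY, ih, add_assoc]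

lemma not_recog [Finite S] {b : S} (hb : b ≠ a) : ¬ Recog fun w => ((XY a w).1 : ℚ) := by
  rintro ⟨A, hA⟩
  have := A.fin
  have := Fintype.ofFinite A.Q
  have := Fintype.ofFinite S
  obtain ⟨u, hu⟩ := key A
  obtain ⟨s, P, hP, hs⟩ := XY_app a u
  let N : ℕ := P * (∏ q, ∏ c, ∏ j, (A.upd q c j).den) * (∏ q, (A.out q).den) * ∏ i, (A.init i).den
  have hN : N ≠ 0 := by
    simp only [N, mul_ne_zero_iff, Finset.prod_ne_zero_iff]
    exact ⟨⟨⟨hP.ne', fun _ _ _ _ _ _ => Tm.den_ne _⟩, fun _ _ => Tm.den_ne _⟩,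
      fun _ _ => Rat.den_nz _⟩
  obtain ⟨p, hpN, hp⟩ := Nat.exists_infinite_primes (N + 1)
  have := Fact.mk hp
  have hNK : (N : ZMod p) ≠ 0 := fun h =>
    absurd (Nat.le_of_dvd (Nat.pos_of_ne_zero hN) ((ZMod.natCast_eq_zero_iff _ _).1 h)) (by omega)
  simp only [N, Nat.cast_mul, Nat.cast_prod, mul_ne_zero_iff, Finset.prod_ne_zero_iff] at hNK
  obtain ⟨⟨⟨k1, k2⟩, k3⟩, k4⟩ := hNK
  have hv : ∀ w, ((XY a w).1 : ZMod p) =
      (A.out (st A A.q0 w)).ev (sem A A.q0 w fun i => (A.init i : ZMod p)) := fun w => by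
    obtain ⟨h1, h2, h3⟩ := run_cast (K := ZMod p) A
      (fun q c j => k2 q (Finset.mem_univ _) c (Finset.mem_univ _) j (Finset.mem_univ _)) w A.q0
      A.init fun i => k4 i (Finset.mem_univ _)
    rw [← h3, ← h1, ← (Tm.ev_cast _ _ h2 (k3 _ (Finset.mem_univ _))).2]
    have := hA w
    rw [CCRA.value] at this
    rw [this, Rat.cast_natCast]
  obtain ⟨r₁, r₂, h1, h2⟩ := hu (ZMod p) (b :: (List.replicate (p - 1) a ++ [b]))
    (b :: b :: (List.replicate (p - 1) a ++ [b]))
  have h3 := hv (u ++ (b :: (List.replicate (p - 1) a ++ [b]) ++ r₁))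
  rw [h1, h2, ← hv, hs _ (by simp [XY, hb]), hs _ (by simp [XY, hb])] at h3
  have h4 : (1 : ZMod p) + ((p - 1 : ℕ) : ZMod p) = 0 := by
    rw [Nat.cast_sub hp.one_le]; simp
  simp only [List.cons_append, List.append_assoc, XY, hb, if_false, XY_rep] at h3
  push_cast at h3
  rw [h4] at h3
  apply k1
  linear_combination -h3

end Pool.Agent.H.MP_32a6cf_lc
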