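import Mathlib

set_option autoImplicit false

namespace Pool.Agent.H.MP_32a6cf_lc

/-- Terms built from `d` registers and rational constants with `+` and `*`. -/
inductive Tm (d : ℕ) : Type
  | var (i : Fin d)
  | const (c : ℚ)
  | add (s t : Tm d)
  | mul (s t : Tm d)

/-- The value of a term at given register values. -/
def Tm.eval {d : ℕ} (x : Fin d → ℚ) : Tm d → ℚ
  | .var i => x i
  | .const c => c
  | .add s t => s.eval x + t.eval x
  | .mul s t => s.eval x * t.eval x

/-- The number of occurrences of register `i` in a term. -/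
def Tm.occ {d : ℕ} (i : Fin d) : Tm d → ℕ
  | .var j => if j = i then 1 else 0
  | .const _ => 0
  | .add s t => s.occ i + t.occ i
  | .mul s t => s.occ i + t.occ i

/-- A copyless cost register automaton over `ℚ` with input alphabet `S`. -/
structure CCRA (S : Type) : Type 1 where
  Q : Type
  fin : Finite Q
  q0 : Q
  d : ℕ
  next : Q → S → Q
  upd : Q → S → Fin d → Tm d
  upd_copyless : ∀ q a i, ∑ j, (upd q a j).occ i ≤ 1
  init : Fin d → ℚ
  out : Q → Tm d
  out_copyless : ∀ q i, (out q).occ i ≤ 1

/-- One step on configurations (state, register values). -/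
def CCRA.step {S : Type} (A : CCRA S) (c : A.Q × (Fin A.d → ℚ)) (a : S) :
    A.Q × (Fin A.d → ℚ) :=
  (A.next c.1 a, fun j => (A.upd c.1 a j).eval c.2)

/-- The value of the automaton on a word, read from left to right. -/
def CCRA.value {S : Type} (A : CCRA S) (w : List S) : ℚ :=
  (A.out (w.foldl A.step (A.q0, A.init)).1).eval (w.foldl A.step (A.q0, A.init)).2

/-- `f` is recognisable by a `ℚ`-CCRA. -/
def Recog {S : Type} (f : List S → ℚ) : Prop := ∃ A : CCRA S, ∀ w, A.value w = f w

end Pool.Agent.H.MP_32a6cf_lc
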